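import Mathlib

set_option autoImplicit false
set_option linter.unusedSectionVars false
open MeasureTheory Set Metric
open scoped Pointwise ENNReal

namespace Pool.Agent.H868R2.Plate

section Gen

variable {F : Type*} [NormedAddCommGroup F] [InnerProductSpace ℝ F] [FiniteDimensional ℝ F]
  [MeasurableSpace F] [BorelSpace F]

/-- the map `(s, y) ↦ s u + y` -/
noncomputable def psi (u : F) (p : ℝ × (ℝ ∙ u)ᗮ) : F := p.1 • u + (p.2 : F)

theorem mp_psi (u : F) (hu : ‖u‖ = 1) : MeasurePreserving (psi u) := by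
  have h1 : MeasurePreserving (Prod.map (LinearIsometryEquiv.toSpanUnitSingleton (𝕜 := ℝ) u hu)
      (id : (ℝ ∙ u)ᗮ → (ℝ ∙ u)ᗮ)) :=
    (LinearIsometryEquiv.measurePreserving _).prod (MeasurePreserving.id _)
  have h2 := WithLp.volume_preserving_toLp (ℝ ∙ u) (ℝ ∙ u)ᗮ
  have h3 := (Submodule.orthogonalDecomposition (𝕜 := ℝ) (ℝ ∙ u)).symm.measurePreserving
  have h4 := h3.comp (h2.comp h1)
  convert h4 using 1
  ext p
  simp [psi]

theorem psi_decomp (u : F) (hu : ‖u‖ = 1) (x : F) :
    ∃ y : (ℝ ∙ u)ᗮ, (y : F) = x - (inner ℝ u x) • u := by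
  refine ⟨⟨x - (inner ℝ u x) • u, ?_⟩, rfl⟩
  rw [Submodule.mem_orthogonal_singleton_iff_inner_right, inner_sub_right, inner_smul_right,
    real_inner_self_eq_norm_sq, hu]
  ring

theorem inner_orth (u : F) (y : (ℝ ∙ u)ᗮ) : inner ℝ u (y : F) = 0 :=
  (Submodule.mem_orthogonal_singleton_iff_inner_right (𝕜 := ℝ)).1 y.2

theorem inner_psi (u : F) (hu : ‖u‖ = 1) (s : ℝ) (y : (ℝ ∙ u)ᗮ) :
    inner ℝ u (s • u + (y : F)) = s := by
  rw [inner_add_right, inner_smul_right, real_inner_self_eq_norm_sq, hu, inner_orth]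
  ring

/-- the shadow of `K` in direction `u` -/
def shadow (u : F) (K : Set F) : Set (ℝ ∙ u)ᗮ := {y | ∃ s : ℝ, s • u + (y : F) ∈ K}

theorem shadow_eq_image (u : F) (hu : ‖u‖ = 1) (K : Set F) :
    shadow u K = (fun x => (ℝ ∙ u)ᗮ.orthogonalProjectionOnto x) '' K := by
  have hproj : ∀ (s : ℝ) (y : (ℝ ∙ u)ᗮ),
      (ℝ ∙ u)ᗮ.orthogonalProjectionOnto (s • u + (y : F)) = y := by
    intro s y
    simp only [map_add, map_smul]
    have h1 : (ℝ ∙ u)ᗮ.orthogonalProjectionOnto u = 0 := by
      apply Submodule.orthogonalProjectionOnto_orthogonal_apply_eq_zero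
      exact Submodule.mem_span_singleton_self u
    rw [h1]
    simp
  ext y
  constructor
  · rintro ⟨s, hs⟩
    exact ⟨_, hs, hproj s y⟩
  · rintro ⟨x, hx, rfl⟩
    obtain ⟨y, hy⟩ := psi_decomp u hu x
    have hx' : x = (inner ℝ u x) • u + (y : F) := by rw [hy]; abel
    refine ⟨inner ℝ u x, ?_⟩
    have : (ℝ ∙ u)ᗮ.orthogonalProjectionOnto x = y := by
      conv_lhs => rw [hx']
      exact hproj _ y
    simp only [this]
    rw [← hx']
    exact hx

theorem isCompact_shadow (u : F) (hu : ‖u‖ = 1) {K : Set F} (hK : IsCompact K) :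
    IsCompact (shadow u K) := by
  rw [shadow_eq_image u hu]
  exact hK.image (by fun_prop)

theorem convex_shadow (u : F) {K : Set F} (hK : Convex ℝ K) :
    Convex ℝ (shadow u K) := by
  rintro y ⟨s, hs⟩ z ⟨t, ht⟩ a b ha hb hab
  refine ⟨a * s + b * t, ?_⟩
  convert hK hs ht ha hb hab using 1
  simp only [Submodule.coe_add, Submodule.coe_smul, add_smul, smul_add, mul_smul]
  abel

theorem fiber_compact (u : F) (hu : ‖u‖ = 1) {K : Set F} (hK : IsCompact K) (y : (ℝ ∙ u)ᗮ) :
    IsCompact {s : ℝ | s • u + (y : F) ∈ K} := by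
  have h1 : IsClosed {s : ℝ | s • u + (y : F) ∈ K} := by
    have hc : Continuous (fun s : ℝ => s • u + (y : F)) := by fun_prop
    exact hK.isClosed.preimage hc
  have h2 : Bornology.IsBounded {s : ℝ | s • u + (y : F) ∈ K} := by
    obtain ⟨R, hR⟩ := hK.isBounded.subset_closedBall 0
    refine (Metric.isBounded_iff_subset_closedBall 0).2 ⟨R, ?_⟩
    intro s hs
    have h3 := hR hs
    rw [mem_closedBall_zero_iff] at h3 ⊢
    have h4 := abs_real_inner_le_norm u (s • u + (y : F))
    rw [inner_psi u hu, hu, one_mul] at h4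
    exact h4.trans h3
  exact Metric.isCompact_of_isClosed_isBounded h1 h2

theorem fiber_convex (u : F) {K : Set F} (hK : Convex ℝ K) (y : (ℝ ∙ u)ᗮ) :
    Convex ℝ {s : ℝ | s • u + (y : F) ∈ K} := by
  intro s hs t ht a b ha hb hab
  show (a • s + b • t) • u + (y : F) ∈ K
  convert hK hs ht ha hb hab using 1
  have : (y : F) = (a + b) • (y : F) := by rw [hab, one_smul]
  conv_lhs => rw [this]
  simp only [smul_eq_mul, add_smul, smul_add, mul_smul]
  abel

theorem volume_eq_lintegral (u : F) (hu : ‖u‖ = 1) {S : Set F} (hS : MeasurableSet S) :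
    volume S = ∫⁻ y : (ℝ ∙ u)ᗮ, volume {s : ℝ | s • u + (y : F) ∈ S} := by
  have h := mp_psi u hu
  rw [← h.measure_preimage hS.nullMeasurableSet]
  rw [Measure.volume_eq_prod, Measure.prod_apply_symm (h.measurable hS)]
  rfl

theorem vol_fiber_add (u : F) {K : Set F} (hc : IsCompact K) (hK : Convex ℝ K)
    (hu : ‖u‖ = 1) (y : (ℝ ∙ u)ᗮ) :
    volume {s : ℝ | s • u + (y : F) ∈ K + segment ℝ (0 : F) u} =
      volume {s : ℝ | s • u + (y : F) ∈ K} + (shadow u K).indicator 1 y := by
  by_cases hy : y ∈ shadow u K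
  · have hne : {s : ℝ | s • u + (y : F) ∈ K}.Nonempty := hy
    have hI := eq_Icc_of_connected_compact ⟨hne, (fiber_convex u hK y).isPreconnected⟩
      (fiber_compact u hu hc y)
    set a := sInf {s : ℝ | s • u + (y : F) ∈ K}
    set b := sSup {s : ℝ | s • u + (y : F) ∈ K}
    have hab : a ≤ b := by
      rw [hI] at hne
      exact Set.nonempty_Icc.1 hne
    have hI2 : {s : ℝ | s • u + (y : F) ∈ K + segment ℝ (0 : F) u} = Icc a (b + 1) := by
      ext s
      simp only [Set.mem_ofPred_eq, Set.mem_add]
      constructor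
      · rintro ⟨x, hx, z, hz, hxz⟩
        rw [segment_eq_image] at hz
        obtain ⟨θ, hθ, rfl⟩ := hz
        simp only [smul_zero, zero_add] at hxz
        have hx' : x = (s - θ) • u + (y : F) := by
          rw [sub_smul]
          have : x = (x + θ • u) - θ • u := by abel
          rw [this, hxz]; abel
        have h1 : s - θ ∈ Icc a b := by
          rw [← hI]
          show (s - θ) • u + (y : F) ∈ K
          rw [← hx']; exact hx
        exact ⟨by linarith [h1.1, hθ.1], by linarith [h1.2, hθ.2]⟩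
      · rintro ⟨h1, h2⟩
        -- choose the point `min s b`
        have hm : min s b ∈ Icc a b := ⟨le_min h1 hab, min_le_right _ _⟩
        rw [← hI] at hm
        refine ⟨(min s b) • u + (y : F), hm, (s - min s b) • u, ?_, ?_⟩
        · rw [segment_eq_image]
          refine ⟨s - min s b, ⟨by linarith [min_le_left s b], ?_⟩, by simp⟩
          rcases le_total s b with h | h
          · rw [min_eq_left h]; norm_num
          · rw [min_eq_right h]; linarith
        · rw [sub_smul]; abel
    rw [hI2, hI, Real.volume_Icc, Real.volume_Icc, Set.indicator_of_mem hy, Pi.one_apply,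
      ← ENNReal.ofReal_one, ← ENNReal.ofReal_add (by linarith) (by norm_num)]
    congr 1; ring
  · rw [Set.indicator_of_notMem hy, add_zero]
    have h1 : {s : ℝ | s • u + (y : F) ∈ K} = ∅ := by
      ext s
      simp only [Set.mem_ofPred_eq, Set.mem_empty_iff_false, iff_false]
      exact fun h => hy ⟨s, h⟩
    have h2 : {s : ℝ | s • u + (y : F) ∈ K + segment ℝ (0 : F) u} = ∅ := by
      ext s
      simp only [Set.mem_ofPred_eq, Set.mem_empty_iff_false, iff_false, Set.mem_add]
      rintro ⟨x, hx, z, hz, hxz⟩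
      rw [segment_eq_image] at hz
      obtain ⟨θ, hθ, rfl⟩ := hz
      simp only [smul_zero, zero_add] at hxz
      have hx' : x = (s - θ) • u + (y : F) := by
        rw [sub_smul]
        have : x = (x + θ • u) - θ • u := by abel
        rw [this, hxz]; abel
      exact hy ⟨s - θ, by rw [← hx']; exact hx⟩
    rw [h1, h2]

theorem isCompact_segment' (u : F) : IsCompact (segment ℝ (0 : F) u) := by
  rw [segment_eq_image]
  exact isCompact_Icc.image (by fun_prop)

/-- `vol (K + [0,u]) = vol K + area of the shadow` -/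
theorem vol_add_segment (u : F) {K : Set F} (hc : IsCompact K) (hK : Convex ℝ K)
    (hu : ‖u‖ = 1) :
    volume (K + segment ℝ (0 : F) u) = volume K + volume (shadow u K) := by
  have hm1 : MeasurableSet (K + segment ℝ (0 : F) u) :=
    (hc.add (isCompact_segment' u)).measurableSet
  have hm2 := hc.measurableSet
  have hm3 : MeasurableSet (shadow u K) := (isCompact_shadow u hu hc).measurableSet
  rw [volume_eq_lintegral u hu hm1, volume_eq_lintegral u hu hm2]
  simp_rw [vol_fiber_add u hc hK hu]
  rw [lintegral_add_right _ (measurable_one.indicator hm3)]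
  congr 1
  rw [lintegral_indicator_one hm3]

theorem vol_le_shadow (u : F) {K : Set F} (hc : IsCompact K) (hu : ‖u‖ = 1) {R : ℝ}
    (hR : K ⊆ closedBall 0 R) :
    volume K ≤ ENNReal.ofReal (2 * R) * volume (shadow u K) := by
  have hm3 : MeasurableSet (shadow u K) := (isCompact_shadow u hu hc).measurableSet
  rw [volume_eq_lintegral u hu hc.measurableSet]
  calc ∫⁻ y : (ℝ ∙ u)ᗮ, volume {s : ℝ | s • u + (y : F) ∈ K}
      ≤ ∫⁻ y : (ℝ ∙ u)ᗮ, ENNReal.ofReal (2 * R) * (shadow u K).indicator 1 y := by
        refine lintegral_mono fun y => ?_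
        by_cases hy : y ∈ shadow u K
        · rw [Set.indicator_of_mem hy, Pi.one_apply, mul_one]
          have : {s : ℝ | s • u + (y : F) ∈ K} ⊆ Icc (-R) R := by
            intro s hs
            have h3 := hR hs
            rw [mem_closedBall_zero_iff] at h3
            have h4 := abs_real_inner_le_norm u (s • u + (y : F))
            rw [inner_psi u hu, hu, one_mul] at h4
            exact abs_le.1 (h4.trans h3)
          refine (measure_mono this).trans ?_
          rw [Real.volume_Icc]
          apply ENNReal.ofReal_le_ofReal; linarith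
        · have h1 : {s : ℝ | s • u + (y : F) ∈ K} = ∅ := by
            ext s
            simp only [Set.mem_ofPred_eq, Set.mem_empty_iff_false, iff_false]
            exact fun h => hy ⟨s, h⟩
          rw [h1]; simp
    _ = _ := by
        rw [lintegral_const_mul _ (measurable_one.indicator hm3), lintegral_indicator_one hm3]

end Gen

end Pool.Agent.H868R2.Plate
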