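import Pool.Agent.H868R2.Plate

set_option autoImplicit false
set_option linter.unusedSectionVars false
open MeasureTheory Set Metric
open scoped Pointwise ENNReal

namespace Pool.Agent.H868R2.Plate

section Gen

variable {F : Type*} [NormedAddCommGroup F] [InnerProductSpace ℝ F] [FiniteDimensional ℝ F]
  [MeasurableSpace F] [BorelSpace F]

/-- the planar projection as a subset of `F` -/
def proj (u : F) (K : Set F) : Set F := (fun x : F => x - (inner ℝ u x) • u) '' K

theorem mem_proj {u : F} (hu : ‖u‖ = 1) {K : Set F} {x : F} :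
    x ∈ proj u K ↔ ∃ y ∈ shadow u K, x = (y : F) := by
  constructor
  · rintro ⟨z, hz, rfl⟩
    obtain ⟨y, hy⟩ := psi_decomp u hu z
    refine ⟨y, ⟨inner ℝ u z, ?_⟩, hy.symm⟩
    rw [hy]
    convert hz using 1
    abel
  · rintro ⟨y, ⟨s, hs⟩, rfl⟩
    refine ⟨_, hs, ?_⟩
    simp only [inner_psi u hu]
    abel

theorem norm_sq_psi (u : F) (hu : ‖u‖ = 1) (s : ℝ) (y : (ℝ ∙ u)ᗮ) :
    ‖s • u + (y : F)‖ ^ 2 = s ^ 2 + ‖y‖ ^ 2 := by
  rw [norm_add_sq_real, norm_smul, hu, mul_one, Real.norm_eq_abs, sq_abs, inner_smul_left,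
    inner_orth]
  simp

theorem isCompact_proj (u : F) {K : Set F} (hK : IsCompact K) : IsCompact (proj u K) :=
  hK.image (by fun_prop)

theorem upper_fat (u : F) (hu : ‖u‖ = 1) {K : Set F} (hc : IsCompact K) (hK : Convex ℝ K)
    {r t : ℝ} (hr : 0 < r) (ht : 0 < t)
    (hball : closedBall (0 : (ℝ ∙ u)ᗮ) r ⊆ shadow u K) :
    volume (proj u K + closedBall (0 : F) t) ≤
      ENNReal.ofReal (2 * t) *
        (ENNReal.ofReal ((1 + t / r) ^ (Module.finrank ℝ (ℝ ∙ u)ᗮ)) * volume (shadow u K)) := by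
  have hm : MeasurableSet (proj u K + closedBall (0 : F) t) :=
    ((isCompact_proj u hc).add (isCompact_closedBall 0 t)).measurableSet
  have hcs := convex_shadow u hK
  have hsub : psi u ⁻¹' (proj u K + closedBall (0 : F) t) ⊆
      Icc (-t) t ×ˢ ((1 + t / r) • shadow u K) := by
    rintro ⟨s, y⟩ h
    obtain ⟨p, hp, b, hb, hpb⟩ := Set.mem_add.1 h
    obtain ⟨q, hq, rfl⟩ := (mem_proj hu).1 hp
    obtain ⟨b', hb'⟩ := psi_decomp u hu b
    have hbb : b = (inner ℝ u b) • u + (b' : F) := by rw [hb']; abel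
    have hb2 : (inner ℝ u b) ^ 2 + ‖b'‖ ^ 2 ≤ t ^ 2 := by
      rw [← norm_sq_psi u hu, ← hbb]
      rw [mem_closedBall_zero_iff] at hb
      exact pow_le_pow_left₀ (norm_nonneg _) hb 2
    have h1 : |inner ℝ u b| ≤ t := by
      apply abs_le_of_sq_le_sq _ ht.le
      nlinarith [sq_nonneg ‖b'‖]
    have h2 : ‖b'‖ ≤ t := by
      apply le_of_sq_le_sq _ ht.le
      nlinarith [sq_nonneg (inner ℝ u b)]
    -- identify
    have hs : s = inner ℝ u b := by
      have e := congrArg (fun z => inner ℝ u z) hpb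
      simp only [psi, inner_add_right, inner_orth, inner_smul_right,
        real_inner_self_eq_norm_sq, hu] at e
      linarith
    have hy : (y : F) = (q : F) + (b' : F) := by
      have e : (q : F) + b = s • u + (y : F) := hpb
      rw [hbb, ← hs] at e
      have : (y : F) = ((q : F) + (s • u + (b' : F))) - s • u := by rw [e]; abel
      rw [this]; abel
    have hy' : y = q + b' := Subtype.ext (by simpa using hy)
    refine ⟨?_, ?_⟩
    · show s ∈ Icc (-t) t
      rw [hs]; exact abs_le.1 h1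
    · show y ∈ (1 + t / r) • shadow u K
      rw [hcs.add_smul zero_le_one (by positivity), one_smul, hy']
      refine Set.add_mem_add hq ?_
      rw [Set.mem_smul_set_iff_inv_smul_mem₀ (by positivity)]
      apply hball
      rw [mem_closedBall_zero_iff, norm_smul, Real.norm_eq_abs, abs_of_pos (by positivity),
        inv_div]
      calc r / t * ‖b'‖ ≤ r / t * t := by gcongr
        _ = r := by field_simp
  rw [← (mp_psi u hu).measure_preimage hm.nullMeasurableSet]
  refine (measure_mono hsub).trans ?_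
  rw [Measure.volume_eq_prod, Measure.prod_prod, Real.volume_Icc]
  apply mul_le_mul'
  · apply ENNReal.ofReal_le_ofReal; linarith
  · rw [Measure.addHaar_smul, abs_of_pos (by positivity)]

theorem lower_fat (u : F) (hu : ‖u‖ = 1) {K : Set F} (hc : IsCompact K) (hK : Convex ℝ K)
    {R t : ℝ} (hR : 0 < R) (ht : 0 < t) (h0 : (0 : (ℝ ∙ u)ᗮ) ∈ shadow u K)
    (hball : shadow u K ⊆ closedBall (0 : (ℝ ∙ u)ᗮ) R) :
    ENNReal.ofReal (2 * t) * volume (shadow u K) + ENNReal.ofReal t *
        (ENNReal.ofReal ((1 + t / (2 * R)) ^ (Module.finrank ℝ (ℝ ∙ u)ᗮ)) * volume (shadow u K)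
          - volume (shadow u K)) ≤
      volume (proj u K + closedBall (0 : F) t) := by
  have hm : MeasurableSet (proj u K + closedBall (0 : F) t) :=
    ((isCompact_proj u hc).add (isCompact_closedBall 0 t)).measurableSet
  have hcs := convex_shadow u hK
  have hmS : MeasurableSet (shadow u K) := (isCompact_shadow u hu hc).measurableSet
  have hfin : volume (shadow u K) ≠ ∞ := (isCompact_shadow u hu hc).measure_lt_top.ne
  set S' := (1 + t / (2 * R)) • shadow u K with hS'
  have hmS' : MeasurableSet S' := hmS.const_smul₀ _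
  have hSS' : shadow u K ⊆ S' := by
    intro y hy
    rw [hS', hcs.add_smul zero_le_one (by positivity), one_smul]
    refine Set.mem_add.2 ⟨y, hy, 0, ?_, by simp⟩
    exact Set.mem_smul_set.2 ⟨0, h0, by simp⟩
  have hsub : (Icc (-t) t ×ˢ shadow u K) ∪ (Icc (-(t/2)) (t/2) ×ˢ (S' \ shadow u K)) ⊆
      psi u ⁻¹' (proj u K + closedBall (0 : F) t) := by
    rintro ⟨s, y⟩ (⟨h1, h2⟩ | ⟨h1, h2, -⟩)
    · refine Set.mem_add.2 ⟨(y : F), (mem_proj hu).2 ⟨y, h2, rfl⟩, s • u, ?_, ?_⟩
      · rw [mem_closedBall_zero_iff, norm_smul, hu, mul_one]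
        exact abs_le.2 h1
      · simp [psi, add_comm]
    · change s ∈ Icc (-(t/2)) (t/2) at h1
      change y ∈ S' at h2
      rw [hS', hcs.add_smul zero_le_one (by positivity), one_smul] at h2
      obtain ⟨q, hq, w, hw, hqw⟩ := Set.mem_add.1 h2
      obtain ⟨w', hw', rfl⟩ := Set.mem_smul_set.1 hw
      refine Set.mem_add.2 ⟨(q : F), (mem_proj hu).2 ⟨q, hq, rfl⟩,
        s • u + (((t / (2 * R)) • w' : (ℝ ∙ u)ᗮ) : F), ?_, ?_⟩
      · rw [mem_closedBall_zero_iff]
        apply le_of_sq_le_sq _ ht.le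
        rw [norm_sq_psi u hu]
        have h3 : |s| ≤ t / 2 := abs_le.2 h1
        have h4 : ‖w'‖ ≤ R := by
          have := hball hw'
          rwa [mem_closedBall_zero_iff] at this
        have h5 : ‖(t / (2 * R)) • w'‖ ≤ t / 2 := by
          rw [norm_smul, Real.norm_eq_abs, abs_of_pos (by positivity)]
          calc t / (2 * R) * ‖w'‖ ≤ t / (2 * R) * R := by gcongr
            _ = t / 2 := by field_simp
        have h6 : s ^ 2 ≤ (t / 2) ^ 2 := sq_le_sq.2 (by rwa [abs_of_pos (a := t/2) (by positivity)])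
        have h7 : ‖(t / (2 * R)) • w'‖ ^ 2 ≤ (t / 2) ^ 2 := pow_le_pow_left₀ (norm_nonneg _) h5 2
        nlinarith
      · show (q : F) + (s • u + _) = s • u + (y : F)
        rw [← hqw]
        push_cast
        abel
  rw [← (mp_psi u hu).measure_preimage hm.nullMeasurableSet]
  refine le_trans ?_ (measure_mono hsub)
  rw [measure_union]
  · rw [Measure.volume_eq_prod, Measure.prod_prod, Measure.prod_prod, Real.volume_Icc,
      Real.volume_Icc, measure_sdiff hSS' hmS.nullMeasurableSet hfin, hS', Measure.addHaar_smul,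
      abs_of_pos (by positivity)]
    apply le_of_eq
    congr 3
    · ring
    · ring
  · rw [Set.disjoint_left]
    rintro ⟨s, y⟩ ⟨-, h2⟩ ⟨-, -, h3⟩
    exact h3 h2
  · exact measurableSet_Icc.prod (hmS'.diff hmS)

end Gen

end Pool.Agent.H868R2.Plate
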