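import Pool.Agent.H868R2.Plate2

set_option autoImplicit false
set_option linter.unusedSectionVars false
open MeasureTheory Set Metric
open scoped Pointwise ENNReal

namespace Pool.Agent.H868R2.Plate

abbrev E3 := EuclideanSpace ℝ (Fin 3)

/-- the box with centre `m` and half-lengths `w` -/
def box (m w : Fin 3 → ℝ) : Set E3 := {x | ∀ i, |x i - m i| ≤ w i}

theorem vol_box (m w : Fin 3 → ℝ) :
    volume (box m w) = ENNReal.ofReal (2 * w 0) * ENNReal.ofReal (2 * w 1) *
      ENNReal.ofReal (2 * w 2) := by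
  have h := EuclideanSpace.volume_preserving_symm_measurableEquiv_toLp (Fin 3)
  have e : box m w = (MeasurableEquiv.toLp 2 (Fin 3 → ℝ)).symm ⁻¹'
      (Icc (fun i => m i - w i) (fun i => m i + w i)) := by
    ext x
    simp only [box, Set.mem_ofPred_eq, Set.mem_preimage, Set.mem_Icc, Pi.le_def, abs_le]
    constructor
    · intro h
      refine ⟨fun i => ?_, fun i => ?_⟩
      · have := (h i).1; change m i - w i ≤ x i; linarith
      · have := (h i).2; change x i ≤ m i + w i; linarith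
    · rintro ⟨h1, h2⟩ i
      have a := h1 i; have b := h2 i
      change m i - w i ≤ x i at a
      change x i ≤ m i + w i at b
      exact ⟨by linarith, by linarith⟩
  rw [e, h.measure_preimage measurableSet_Icc.nullMeasurableSet, Real.volume_Icc_pi,
    Fin.prod_univ_three]
  have h3 : ∀ i, m i + w i - (m i - w i) = 2 * w i := fun i => by ring
  rw [h3, h3, h3]

theorem isClosed_box (m w : Fin 3 → ℝ) : IsClosed (box m w) := by
  have : box m w = ⋂ i, {x : E3 | |x i - m i| ≤ w i} := by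
    ext x; simp [box]
  rw [this]
  exact isClosed_iInter fun i => isClosed_le (by fun_prop) continuous_const

theorem convex_box (m w : Fin 3 → ℝ) : Convex ℝ (box m w) := by
  intro x hx y hy a b ha hb hab i
  have h1 := hx i
  have h2 := hy i
  have e : (a • x + b • y) i - m i = a * (x i - m i) + b * (y i - m i) := by
    simp only [PiLp.add_apply, PiLp.smul_apply, smul_eq_mul]
    have : m i = (a + b) * m i := by rw [hab, one_mul]
    rw [show a * x i + b * y i - m i = a * x i + b * y i - (a + b) * m i by rw [← this]]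
    ring
  rw [e]
  calc |a * (x i - m i) + b * (y i - m i)| ≤ |a * (x i - m i)| + |b * (y i - m i)| := abs_add_le _ _
    _ = a * |x i - m i| + b * |y i - m i| := by
        rw [abs_mul, abs_mul, abs_of_nonneg ha, abs_of_nonneg hb]
    _ ≤ a * w i + b * w i := by gcongr
    _ = w i := by rw [← add_mul, hab, one_mul]

theorem norm_sq3 (x : E3) : ‖x‖ ^ 2 = x 0 ^ 2 + x 1 ^ 2 + x 2 ^ 2 := by
  rw [EuclideanSpace.norm_sq_eq, Fin.sum_univ_three]
  simp [sq_abs]

/-- the plate -/
def K (ε : ℝ) : Set E3 := box 0 ![1, 1, ε]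

theorem mem_K {ε : ℝ} {x : E3} : x ∈ K ε ↔ |x 0| ≤ 1 ∧ |x 1| ≤ 1 ∧ |x 2| ≤ ε := by
  simp [K, box, Fin.forall_fin_succ]

theorem K_sub {ε : ℝ} (h1 : ε ≤ 1) : K ε ⊆ closedBall 0 2 := by
  intro x hx
  obtain ⟨a, b, c⟩ := mem_K.1 hx
  rw [mem_closedBall_zero_iff]
  apply le_of_sq_le_sq _ (by norm_num)
  rw [norm_sq3]
  have a' : x 0 ^ 2 ≤ 1 := by rw [← sq_abs]; exact pow_le_one₀ (abs_nonneg _) a
  have b' : x 1 ^ 2 ≤ 1 := by rw [← sq_abs]; exact pow_le_one₀ (abs_nonneg _) b
  have c' : x 2 ^ 2 ≤ 1 := by rw [← sq_abs]; exact pow_le_one₀ (abs_nonneg _) (c.trans h1)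
  linarith

theorem K_compact {ε : ℝ} (h1 : ε ≤ 1) : IsCompact (K ε) :=
  Metric.isCompact_of_isClosed_isBounded (isClosed_box _ _)
    (isBounded_closedBall.subset (K_sub h1))

theorem K_convex (ε : ℝ) : Convex ℝ (K ε) := convex_box _ _

theorem K_ball {ε : ℝ} (h1 : ε ≤ 1) : closedBall 0 ε ⊆ K ε := by
  intro x hx
  rw [mem_closedBall_zero_iff] at hx
  have h : ∀ i, |x i| ≤ ε := fun i => (PiLp.norm_apply_le x i).trans hx
  exact mem_K.2 ⟨(h 0).trans h1, (h 1).trans h1, h 2⟩

theorem K_interior {ε : ℝ} (h0 : 0 < ε) (h1 : ε ≤ 1) : (interior (K ε)).Nonempty :=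
  ⟨0, mem_interior_iff_mem_nhds.2 (Filter.mem_of_superset (closedBall_mem_nhds 0 h0) (K_ball h1))⟩

theorem vol_K {ε : ℝ} (h0 : 0 < ε) : volume (K ε) = ENNReal.ofReal (8 * ε) := by
  rw [K, vol_box, ← ENNReal.ofReal_mul (by simp), ← ENNReal.ofReal_mul (by simp)]
  congr 1
  simp
  ring

/-- the inradius bound of the shadow -/
theorem ball_shadow {ε : ℝ} (h0 : 0 < ε) (h1 : ε ≤ 1) (u : E3) (hu : ‖u‖ = 1) :
    closedBall (0 : (ℝ ∙ u)ᗮ) ((ε + |u 2|) / 4) ⊆ shadow u (K ε) := by
  intro y hy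
  rw [mem_closedBall_zero_iff] at hy
  have hyi : ∀ i, |(y : E3) i| ≤ (ε + |u 2|) / 4 := fun i =>
    (PiLp.norm_apply_le (y : E3) i).trans hy
  have hui : ∀ i, |u i| ≤ 1 := fun i => (PiLp.norm_apply_le u i).trans hu.le
  rcases le_total |u 2| ε with h | h
  · -- the point itself
    refine ⟨0, ?_⟩
    rw [zero_smul, zero_add]
    refine mem_K.2 ⟨?_, ?_, ?_⟩
    · have := hyi 0; linarith
    · have := hyi 1; linarith
    · have := hyi 2; linarith
  · have hpos : 0 < |u 2| := lt_of_lt_of_le h0 h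
    have hne : u 2 ≠ 0 := abs_pos.1 hpos
    refine ⟨-(y : E3) 2 / u 2, ?_⟩
    have hs : |(-(y : E3) 2 / u 2)| ≤ 1 / 2 := by
      rw [abs_div, abs_neg, div_le_iff₀ hpos]
      have := hyi 2; linarith
    have hle : ∀ i, |((-(y : E3) 2 / u 2) • u + (y : E3)) i| ≤ 1 := by
      intro i
      simp only [PiLp.add_apply, PiLp.smul_apply, smul_eq_mul]
      calc |(-(y : E3) 2 / u 2) * u i + (y : E3) i|
          ≤ |(-(y : E3) 2 / u 2) * u i| + |(y : E3) i| := abs_add_le _ _
        _ = |(-(y : E3) 2 / u 2)| * |u i| + |(y : E3) i| := by rw [abs_mul]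
        _ ≤ 1 / 2 * 1 + (ε + |u 2|) / 4 := by
            gcongr
            · exact hui i
            · exact hyi i
        _ ≤ 1 := by have := hui 2; linarith
    refine mem_K.2 ⟨hle 0, hle 1, ?_⟩
    simp only [PiLp.add_apply, PiLp.smul_apply, smul_eq_mul]
    rw [div_mul_cancel₀ _ hne]
    simp [h0.le]

theorem vol_add_seg_le {ε : ℝ} (h0 : 0 < ε) (u : E3) (hu : ‖u‖ = 1) :
    volume (K ε + segment ℝ (0 : E3) u) ≤ ENNReal.ofReal (9 * (2 * ε + |u 2|)) := by
  have hui : ∀ i, |u i| ≤ 1 := fun i => (PiLp.norm_apply_le u i).trans hu.le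
  have hsub : K ε + segment ℝ (0 : E3) u ⊆ box (fun i => u i / 2)
      ![1 + |u 0| / 2, 1 + |u 1| / 2, ε + |u 2| / 2] := by
    intro x hx
    obtain ⟨k, hk, z, hz, rfl⟩ := Set.mem_add.1 hx
    rw [segment_eq_image] at hz
    obtain ⟨θ, hθ, rfl⟩ := hz
    obtain ⟨a, b, c⟩ := mem_K.1 hk
    have key : ∀ i (w : ℝ), |k i| ≤ w →
        |(k + ((1 - θ) • (0 : E3) + θ • u)) i - u i / 2| ≤ w + |u i| / 2 := by
      intro i w hw
      simp only [PiLp.add_apply, PiLp.smul_apply, smul_eq_mul, PiLp.zero_apply, mul_zero, zero_add]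
      have : k i + θ * u i - u i / 2 = k i + (θ - 1 / 2) * u i := by ring
      rw [this]
      refine (abs_add_le _ _).trans ?_
      rw [abs_mul]
      have h2 : |θ - 1 / 2| ≤ 1 / 2 := abs_le.2 ⟨by linarith [hθ.1], by linarith [hθ.2]⟩
      have := mul_le_mul_of_nonneg_right h2 (abs_nonneg (u i))
      linarith
    intro i
    fin_cases i
    · exact key 0 1 a
    · exact key 1 1 b
    · exact key 2 ε c
  refine (measure_mono hsub).trans ?_
  rw [vol_box, ← ENNReal.ofReal_mul (by simp; positivity), ← ENNReal.ofReal_mul (by simp; positivity)]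
  apply ENNReal.ofReal_le_ofReal
  simp only [Matrix.cons_val_zero, Matrix.cons_val_one, Matrix.cons_val]
  have a := hui 0
  have b := hui 1
  have ha : 2 * (1 + |u 0| / 2) ≤ 3 := by linarith
  have hb : 2 * (1 + |u 1| / 2) ≤ 3 := by linarith
  calc 2 * (1 + |u 0| / 2) * (2 * (1 + |u 1| / 2)) * (2 * (ε + |u 2| / 2))
      ≤ 3 * 3 * (2 * (ε + |u 2| / 2)) := by gcongr
    _ = 9 * (2 * ε + |u 2|) := by ring

theorem shadow_sub {ε : ℝ} (h1 : ε ≤ 1) (u : E3) (hu : ‖u‖ = 1) :
    shadow u (K ε) ⊆ closedBall (0 : (ℝ ∙ u)ᗮ) 2 := by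
  rintro y ⟨s, hs⟩
  have h := K_sub h1 hs
  rw [mem_closedBall_zero_iff] at h ⊢
  apply le_of_sq_le_sq _ (by norm_num)
  have h2 := norm_sq_psi u hu s y
  have h3 : ‖s • u + (y : E3)‖ ^ 2 ≤ 2 ^ 2 := pow_le_pow_left₀ (norm_nonneg _) h 2
  nlinarith [sq_nonneg s]

theorem finrank_orth (u : E3) (hu : ‖u‖ = 1) : Module.finrank ℝ (ℝ ∙ u)ᗮ = 2 := by
  have : Fact (Module.finrank ℝ E3 = 2 + 1) := ⟨by simp⟩
  apply Submodule.finrank_orthogonal_span_singleton
  intro h; rw [h] at hu; simp at hu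

/-- the volume of the parallel bodies of the plate: the derivative at `0` -/
theorem tendsto_S {ε : ℝ} (h0 : 0 < ε) (h1 : ε ≤ 1) :
    Filter.Tendsto (fun t : ℝ =>
        ((volume (K ε + Metric.closedBall (0 : E3) t)).toReal
          - (volume (K ε)).toReal) / (2 * t))
        (nhdsWithin 0 (Set.Ioi 0)) (nhds (4 * (1 + 2 * ε))) := by
  have hvK : (volume (K ε)).toReal = 8 * ε := by
    rw [vol_K h0, ENNReal.toReal_ofReal (by positivity)]
  have hfin : ∀ t : ℝ, volume (K ε + closedBall (0 : E3) t) ≠ ∞ := fun t =>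
    ((K_compact h1).add (isCompact_closedBall 0 t)).measure_lt_top.ne
  have up : ∀ t : ℝ, 0 < t → (volume (K ε + closedBall (0 : E3) t)).toReal ≤
      8 * (1 + t) ^ 2 * (ε + t) := by
    intro t ht
    have hsub : K ε + closedBall (0 : E3) t ⊆ box 0 ![1 + t, 1 + t, ε + t] := by
      intro x hx
      obtain ⟨k, hk, z, hz, rfl⟩ := Set.mem_add.1 hx
      rw [mem_closedBall_zero_iff] at hz
      obtain ⟨a, b, c⟩ := mem_K.1 hk
      have key : ∀ i (w : ℝ), |k i| ≤ w → |(k + z) i - (0 : Fin 3 → ℝ) i| ≤ w + t := by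
        intro i w hw
        simp only [PiLp.add_apply, Pi.zero_apply, sub_zero]
        exact (abs_add_le _ _).trans (add_le_add hw ((PiLp.norm_apply_le z i).trans hz))
      intro i
      fin_cases i
      · exact key 0 1 a
      · exact key 1 1 b
      · exact key 2 ε c
    have h := measure_mono (μ := volume) hsub
    rw [vol_box, ← ENNReal.ofReal_mul (by simp; positivity),
      ← ENNReal.ofReal_mul (by simp; positivity)] at h
    refine ENNReal.toReal_le_of_le_ofReal (by positivity) (h.trans (le_of_eq ?_))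
    congr 1
    simp only [Matrix.cons_val_zero, Matrix.cons_val_one, Matrix.cons_val]
    ring
  have lo : ∀ t : ℝ, 0 < t → 8 * ε + 8 * (1 + 2 * ε) * t ≤
      (volume (K ε + closedBall (0 : E3) t)).toReal := by
    intro t ht
    set B1 := box 0 ![1 + t, 1, ε] with hB1
    set B2 := box 0 ![1, 1 + t, ε] with hB2
    set B3 := box 0 ![1, 1, ε + t] with hB3
    have m1 : ∀ {x : E3}, x ∈ B1 ↔ |x 0| ≤ 1 + t ∧ |x 1| ≤ 1 ∧ |x 2| ≤ ε := by
      intro x; simp [hB1, box, Fin.forall_fin_succ]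
    have m2 : ∀ {x : E3}, x ∈ B2 ↔ |x 0| ≤ 1 ∧ |x 1| ≤ 1 + t ∧ |x 2| ≤ ε := by
      intro x; simp [hB2, box, Fin.forall_fin_succ]
    have m3 : ∀ {x : E3}, x ∈ B3 ↔ |x 0| ≤ 1 ∧ |x 1| ≤ 1 ∧ |x 2| ≤ ε + t := by
      intro x; simp [hB3, box, Fin.forall_fin_succ]
    -- each point of an enlarged box is within `t` of `K`
    have single : ∀ (i : Fin 3) (w : ℝ) (x : E3), 0 < w → |x i| ≤ w + t →
        ∃ c : ℝ, |c| ≤ t ∧ |x i - c| ≤ w := by
      intro i w x hw h
      obtain ⟨h1, h2⟩ := abs_le.1 h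
      rcases le_total (x i) w with ha | ha
      · rcases le_total (-w) (x i) with hb | hb
        · exact ⟨0, by simp [ht.le], abs_le.2 ⟨by linarith, by linarith⟩⟩
        · exact ⟨x i + w, abs_le.2 ⟨by linarith, by linarith⟩, by
            rw [show x i - (x i + w) = -w by ring, abs_neg, abs_of_pos hw]⟩
      · exact ⟨x i - w, abs_le.2 ⟨by linarith, by linarith⟩, by
          rw [show x i - (x i - w) = w by ring, abs_of_pos hw]⟩
    have s1 : B1 ⊆ K ε + closedBall (0 : E3) t := by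
      intro x hx
      obtain ⟨a, b, c⟩ := m1.1 hx
      obtain ⟨d, hd, hd'⟩ := single 0 1 x one_pos a
      refine Set.mem_add.2 ⟨x - EuclideanSpace.single 0 d, ?_, EuclideanSpace.single 0 d, ?_, by abel⟩
      · refine mem_K.2 ⟨by simpa using hd', by simpa using b, by simpa using c⟩
      · rw [mem_closedBall_zero_iff]; simpa using hd
    have s2 : B2 ⊆ K ε + closedBall (0 : E3) t := by
      intro x hx
      obtain ⟨a, b, c⟩ := m2.1 hx
      obtain ⟨d, hd, hd'⟩ := single 1 1 x one_pos b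
      refine Set.mem_add.2 ⟨x - EuclideanSpace.single 1 d, ?_, EuclideanSpace.single 1 d, ?_, by abel⟩
      · refine mem_K.2 ⟨by simpa using a, by simpa using hd', by simpa using c⟩
      · rw [mem_closedBall_zero_iff]; simpa using hd
    have s3 : B3 ⊆ K ε + closedBall (0 : E3) t := by
      intro x hx
      obtain ⟨a, b, c⟩ := m3.1 hx
      obtain ⟨d, hd, hd'⟩ := single 2 ε x h0 c
      refine Set.mem_add.2 ⟨x - EuclideanSpace.single 2 d, ?_, EuclideanSpace.single 2 d, ?_, by abel⟩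
      · refine mem_K.2 ⟨by simpa using a, by simpa using b, by simpa using hd'⟩
      · rw [mem_closedBall_zero_iff]; simpa using hd
    have mK : MeasurableSet (K ε) := (K_compact h1).measurableSet
    have mB2 : MeasurableSet B2 := (isClosed_box _ _).measurableSet
    have mB3 : MeasurableSet B3 := (isClosed_box _ _).measurableSet
    have d12 : Disjoint B1 (B2 \ K ε) := by
      rw [Set.disjoint_left]
      rintro x hx ⟨hx2, hx3⟩
      exact hx3 (mem_K.2 ⟨(m2.1 hx2).1, (m1.1 hx).2.1, (m1.1 hx).2.2⟩)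
    have d13 : Disjoint (B1 ∪ (B2 \ K ε)) (B3 \ K ε) := by
      rw [Set.disjoint_left]
      rintro x (hx | hx) ⟨hx2, hx3⟩
      · exact hx3 (mem_K.2 ⟨(m3.1 hx2).1, (m1.1 hx).2.1, (m1.1 hx).2.2⟩)
      · exact hx3 (mem_K.2 ⟨(m3.1 hx2).1, (m3.1 hx2).2.1, (m2.1 hx.1).2.2⟩)
    have v1 : (volume B1) = ENNReal.ofReal (8 * (1 + t) * ε) := by
      rw [hB1, vol_box, ← ENNReal.ofReal_mul (by simp; positivity),
        ← ENNReal.ofReal_mul (by simp; positivity)]
      congr 1
      simp only [Matrix.cons_val_zero, Matrix.cons_val_one, Matrix.cons_val]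
      ring
    have v2 : (volume B2) = ENNReal.ofReal (8 * (1 + t) * ε) := by
      rw [hB2, vol_box, ← ENNReal.ofReal_mul (by simp),
        ← ENNReal.ofReal_mul (by simp; positivity)]
      congr 1
      simp only [Matrix.cons_val_zero, Matrix.cons_val_one, Matrix.cons_val]
      ring
    have v3 : (volume B3) = ENNReal.ofReal (8 * (ε + t)) := by
      rw [hB3, vol_box, ← ENNReal.ofReal_mul (by simp),
        ← ENNReal.ofReal_mul (by simp)]
      congr 1
      simp only [Matrix.cons_val_zero, Matrix.cons_val_one, Matrix.cons_val]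
      ring
    have hKfin : volume (K ε) ≠ ∞ := (K_compact h1).measure_lt_top.ne
    have kB2 : K ε ⊆ B2 := fun x hx => m2.2 ⟨(mem_K.1 hx).1, by linarith [(mem_K.1 hx).2.1], (mem_K.1 hx).2.2⟩
    have kB3 : K ε ⊆ B3 := fun x hx => m3.2 ⟨(mem_K.1 hx).1, (mem_K.1 hx).2.1, by linarith [(mem_K.1 hx).2.2]⟩
    have hU : volume (B1 ∪ (B2 \ K ε) ∪ (B3 \ K ε)) =
        ENNReal.ofReal (8 * ε + 8 * (1 + 2 * ε) * t) := by
      rw [measure_union d13 (mB3.diff mK), measure_union d12 (mB2.diff mK),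
        measure_sdiff kB2 mK.nullMeasurableSet hKfin, measure_sdiff kB3 mK.nullMeasurableSet hKfin,
        v1, v2, v3, vol_K h0, ← ENNReal.ofReal_sub _ (by positivity),
        ← ENNReal.ofReal_sub _ (by positivity), ← ENNReal.ofReal_add (by positivity)
        (by ring_nf; positivity), ← ENNReal.ofReal_add (by ring_nf; positivity)
        (by ring_nf; positivity)]
      congr 1
      ring
    have hsub : B1 ∪ (B2 \ K ε) ∪ (B3 \ K ε) ⊆ K ε + closedBall (0 : E3) t :=
      union_subset (union_subset s1 (sdiff_subset.trans s2)) (sdiff_subset.trans s3)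
    have h := measure_mono (μ := volume) hsub
    rw [hU] at h
    rw [← ENNReal.ofReal_le_iff_le_toReal (hfin t)]
    exact h
  refine tendsto_of_tendsto_of_tendsto_of_le_of_le' (g := fun _ => 4 * (1 + 2 * ε))
    (h := fun t => 4 * (1 + 2 * ε + (ε + 2) * t + t ^ 2)) tendsto_const_nhds ?_ ?_ ?_
  · have hc : Continuous (fun t : ℝ => 4 * (1 + 2 * ε + (ε + 2) * t + t ^ 2)) := by fun_prop
    have := hc.tendsto 0
    simp only [mul_zero, add_zero, ne_eq, OfNat.ofNat_ne_zero, not_false_eq_true, zero_pow] at this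
    exact this.mono_left nhdsWithin_le_nhds
  · filter_upwards [self_mem_nhdsWithin] with t ht
    have ht' : 0 < t := ht
    rw [hvK, le_div_iff₀ (by positivity)]
    have := lo t ht'
    nlinarith
  · filter_upwards [self_mem_nhdsWithin] with t ht
    have ht' : 0 < t := ht
    rw [hvK, div_le_iff₀ (by positivity)]
    have := up t ht'
    nlinarith

end Pool.Agent.H868R2.Plate
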