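import Pool.Agent.H868R2.Plate3

set_option autoImplicit false
set_option linter.unusedSectionVars false
open MeasureTheory Set Metric
open scoped Pointwise ENNReal

namespace Pool.Agent.H868R2.Plate

theorem main_u {ε : ℝ} (h0 : 0 < ε) (h1 : ε ≤ 1) (u : E3) (hu : ‖u‖ = 1) (L : ℝ)
    (hL : Filter.Tendsto (fun t : ℝ =>
        ((volume ((fun x : EuclideanSpace ℝ (Fin 3) => x - (inner ℝ u x) • u) '' K ε
              + Metric.closedBall (0 : EuclideanSpace ℝ (Fin 3)) t)).toReal
          - 2 * t * ((volume (K ε + segment ℝ (0 : EuclideanSpace ℝ (Fin 3)) u)).toReal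
              - (volume (K ε)).toReal)) / (Real.pi * t ^ 2))
        (nhdsWithin 0 (Set.Ioi 0)) (nhds L)) :
    ε / 1000 ≤ Real.pi * ((volume (K ε + segment ℝ (0 : EuclideanSpace ℝ (Fin 3)) u)).toReal
              - (volume (K ε)).toReal) / L ^ 2 := by
  have hc := K_compact h1
  have hK := K_convex ε
  have hfinS : volume (shadow u (K ε)) ≠ ∞ := (isCompact_shadow u hu hc).measure_lt_top.ne
  have hfinK : volume (K ε) ≠ ∞ := hc.measure_lt_top.ne
  set A := (volume (shadow u (K ε))).toReal with hA
  have hseg : (volume (K ε + segment ℝ (0 : EuclideanSpace ℝ (Fin 3)) u)).toReal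
              - (volume (K ε)).toReal = A := by
    rw [vol_add_segment u hc hK hu, ENNReal.toReal_add hfinK hfinS]; ring
  rw [hseg]
  simp only [hseg] at hL
  -- bounds for A
  have hvK : (volume (K ε)).toReal = 8 * ε := by
    rw [vol_K h0, ENNReal.toReal_ofReal (by positivity)]
  have hA1 : 2 * ε ≤ A := by
    have h := vol_le_shadow u hc hu (K_sub h1)
    rw [vol_K h0] at h
    have h2 := ENNReal.toReal_mono (ENNReal.mul_ne_top ENNReal.ofReal_ne_top hfinS) h
    rw [ENNReal.toReal_mul, ENNReal.toReal_ofReal (by positivity),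
      ENNReal.toReal_ofReal (by positivity)] at h2
    rw [hA]; linarith
  have hA2 : A ≤ 10 * (ε + |u 2|) := by
    have h := vol_add_seg_le h0 u hu
    have h2 := ENNReal.toReal_mono ENNReal.ofReal_ne_top h
    rw [ENNReal.toReal_ofReal (by positivity)] at h2
    have := abs_nonneg (u 2)
    linarith
  have hApos : 0 < A := by linarith
  set r := (ε + |u 2|) / 4 with hr
  have hrpos : 0 < r := by have := abs_nonneg (u 2); rw [hr]; positivity
  have hAr : A ≤ 40 * r := by rw [hr]; linarith
  have hball := ball_shadow h0 h1 u hu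
  have hfr := finrank_orth u hu
  have hsub := shadow_sub h1 u hu
  have hz : (0 : (ℝ ∙ u)ᗮ) ∈ shadow u (K ε) := hball (by
    rw [mem_closedBall_zero_iff, norm_zero]; exact hrpos.le)
  have hfin : ∀ t : ℝ, volume (proj u (K ε) + closedBall (0 : E3) t) ≠ ∞ := fun t =>
    ((isCompact_proj u hc).add (isCompact_closedBall 0 t)).measure_lt_top.ne
  have hup : ∀ t : ℝ, 0 < t → (volume (proj u (K ε) + closedBall (0 : E3) t)).toReal ≤
      2 * t * ((1 + t / r) ^ 2 * A) := by
    intro t ht
    have h := upper_fat u hu hc hK hrpos ht hball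
    have h2 := ENNReal.toReal_mono (ENNReal.mul_ne_top ENNReal.ofReal_ne_top
      (ENNReal.mul_ne_top ENNReal.ofReal_ne_top hfinS)) h
    rwa [ENNReal.toReal_mul, ENNReal.toReal_mul, ENNReal.toReal_ofReal (by positivity),
      ENNReal.toReal_ofReal (by positivity), hfr] at h2
  have hlo : ∀ t : ℝ, 0 < t → 2 * t * A + t * ((1 + t / 4) ^ 2 * A - A) ≤
      (volume (proj u (K ε) + closedBall (0 : E3) t)).toReal := by
    intro t ht
    have h := lower_fat u hu hc hK (R := 2) two_pos ht hz hsub
    have h2 := ENNReal.toReal_mono (hfin t) h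
    rw [hfr] at h2
    have hle : volume (shadow u (K ε)) ≤ ENNReal.ofReal ((1 + t / (2 * 2)) ^ 2) *
        volume (shadow u (K ε)) := by
      conv_lhs => rw [← one_mul (volume (shadow u (K ε)))]
      gcongr
      rw [ENNReal.one_le_ofReal]
      have : 0 < t / (2 * 2) := by positivity
      nlinarith
    rw [ENNReal.toReal_add (ENNReal.mul_ne_top ENNReal.ofReal_ne_top hfinS)
      (ENNReal.mul_ne_top ENNReal.ofReal_ne_top (ENNReal.sub_ne_top
        (ENNReal.mul_ne_top ENNReal.ofReal_ne_top hfinS))),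
      ENNReal.toReal_mul, ENNReal.toReal_mul, ENNReal.toReal_sub_of_le hle
        (ENNReal.mul_ne_top ENNReal.ofReal_ne_top hfinS), ENNReal.toReal_mul,
      ENNReal.toReal_ofReal (by positivity), ENNReal.toReal_ofReal (by positivity),
      ENNReal.toReal_ofReal (by positivity)] at h2
    rw [show t / 4 = t / (2 * 2) by norm_num, hA]
    exact h2
  have hpi := Real.pi_pos
  have hpi3 := Real.pi_gt_d2
  -- bounds for L
  have hL1 : A / (2 * Real.pi) ≤ L := by
    refine ge_of_tendsto hL ?_
    filter_upwards [self_mem_nhdsWithin] with t ht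
    have ht' : 0 < t := ht
    have h := hlo t ht'
    rw [le_div_iff₀ (by positivity)]
    have e : A / (2 * Real.pi) * (Real.pi * t ^ 2) = A * t ^ 2 / 2 := by field_simp
    rw [e]
    have h3 : 0 < A * t ^ 3 := by positivity
    change A * t ^ 2 / 2 ≤ (volume (proj u (K ε) + closedBall (0 : E3) t)).toReal - 2 * t * A
    nlinarith
  have hL2 : L ≤ 160 / Real.pi := by
    have hlim : Filter.Tendsto (fun t : ℝ => 2 * A / Real.pi * (2 / r + t / r ^ 2))
        (nhdsWithin 0 (Set.Ioi 0)) (nhds (2 * A / Real.pi * (2 / r + 0 / r ^ 2))) := by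
      have hcc : Continuous (fun t : ℝ => 2 * A / Real.pi * (2 / r + t / r ^ 2)) := by fun_prop
      exact (hcc.tendsto 0).mono_left nhdsWithin_le_nhds
    have h := le_of_tendsto_of_tendsto hL hlim (by
      filter_upwards [self_mem_nhdsWithin] with t ht
      have ht' : 0 < t := ht
      have h := hup t ht'
      rw [div_le_iff₀ (by positivity)]
      have e : 2 * A / Real.pi * (2 / r + t / r ^ 2) * (Real.pi * t ^ 2) =
          2 * t * ((1 + t / r) ^ 2 * A) - 2 * t * A := by field_simp; ring
      rw [e]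
      change (volume (proj u (K ε) + closedBall (0 : E3) t)).toReal - 2 * t * A ≤ _
      linarith)
    refine h.trans ?_
    rw [zero_div, add_zero]
    have e : 2 * A / Real.pi * (2 / r) = 4 * (A / r) / Real.pi := by field_simp; ring
    rw [e]
    have h5 : A / r ≤ 40 := by rw [div_le_iff₀ hrpos]; exact hAr
    gcongr
    linarith
  have hLpos : 0 < L := lt_of_lt_of_le (by positivity) hL1
  have hL3 : L ≤ 51 := by
    refine hL2.trans ?_
    rw [div_le_iff₀ hpi]
    nlinarith
  have hLsq : L ^ 2 ≤ 2601 := by nlinarith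
  rw [le_div_iff₀ (by positivity)]
  calc ε / 1000 * L ^ 2 ≤ ε / 1000 * 2601 := by gcongr
    _ ≤ 3.14 * (2 * ε) := by linarith
    _ ≤ Real.pi * A := by gcongr

end Pool.Agent.H868R2.Plate
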